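import Mathlib

set_option autoImplicit false

namespace Pool.Agent.Helper98.FaceLemma

/-- minimal face generated by `B` in the convex cone `P` -/
def minFace {V : Type} [AddCommGroup V] [Module ℝ V] (P : Set V) (B : V) : Set V :=
  {F | F ∈ P ∧ ∃ c : ℝ, 0 ≤ c ∧ c • B - F ∈ P}

section
variable {V : Type} [AddCommGroup V] [Module ℝ V] {P : Set V}
  (hadd : ∀ x ∈ P, ∀ y ∈ P, x + y ∈ P) (hsmul : ∀ c : ℝ, 0 ≤ c → ∀ x ∈ P, c • x ∈ P)
include hadd hsmul

theorem convex_minFace (B : V) : Convex ℝ (minFace P B) := by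
  intro x hx y hy a b ha hb _
  obtain ⟨hxP, c, hc, hxc⟩ := hx
  obtain ⟨hyP, d, hd, hyd⟩ := hy
  refine ⟨hadd _ (hsmul a ha _ hxP) _ (hsmul b hb _ hyP), a * c + b * d, by positivity, ?_⟩
  have h := hadd _ (hsmul a ha _ hxc) _ (hsmul b hb _ hyd)
  convert h using 1
  module

theorem isExtreme_minFace (B : V) : IsExtreme ℝ P (minFace P B) := by
  refine ⟨fun x hx => hx.1, ?_⟩
  intro x hx y hy z hz hzo
  obtain ⟨a, b, ha, hb, hab, rfl⟩ := hzo
  obtain ⟨_, c, hc, hzc⟩ := hz
  refine ⟨hx, c / a, by positivity, ?_⟩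
  have h1 := hadd _ hzc _ (hsmul b hb.le _ hy)
  have h2 := hsmul a⁻¹ (by positivity) _ h1
  convert h2 using 1
  have : a ≠ 0 := ha.ne'
  match_scalars <;> field_simp
  · ring

theorem bound_span (B : V) (hB : B ∈ P) {G : V} (hG : G ∈ Submodule.span ℝ (minFace P B)) :
    ∃ c : ℝ, 0 ≤ c ∧ c • B + G ∈ P ∧ c • B - G ∈ P := by
  induction hG using Submodule.span_induction with
  | mem x hx =>
    obtain ⟨hxP, c, hc, hxc⟩ := hx
    exact ⟨c, hc, hadd _ (hsmul c hc _ hB) _ hxP, hxc⟩
  | zero =>
    refine ⟨0, le_rfl, ?_, ?_⟩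
    · have := hsmul 0 le_rfl _ hB
      simpa using this
    · have := hsmul 0 le_rfl _ hB
      simpa using this
  | add x y _ _ hx hy =>
    obtain ⟨c, hc, h1, h2⟩ := hx
    obtain ⟨d, hd, h3, h4⟩ := hy
    refine ⟨c + d, by positivity, ?_, ?_⟩
    · have := hadd _ h1 _ h3
      convert this using 1
      module
    · have := hadd _ h2 _ h4
      convert this using 1
      module
  | smul a x _ hx =>
    obtain ⟨c, hc, h1, h2⟩ := hx
    rcases le_total 0 a with ha | ha
    · refine ⟨a * c, by positivity, ?_, ?_⟩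
      · have := hsmul a ha _ h1
        convert this using 1
        module
      · have := hsmul a ha _ h2
        convert this using 1
        module
    · refine ⟨(-a) * c, mul_nonneg (by linarith) hc, ?_, ?_⟩
      · have := hsmul (-a) (by linarith) _ h2
        convert this using 1
        module
      · have := hsmul (-a) (by linarith) _ h1
        convert this using 1
        module

theorem mem_relInterior_minFace [Module.Finite ℝ V] (B F : V) (hB : B ∈ P) (hF : F ∈ P)
    (c δ : ℝ) (hc : 0 ≤ c) (hδ : 0 < δ) (h1 : c • B - F ∈ P) (h2 : F - δ • B ∈ P) :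
    letI : TopologicalSpace V := moduleTopology ℝ V
    F ∈ intrinsicInterior ℝ (minFace P B) := by
  letI : TopologicalSpace V := moduleTopology ℝ V
  haveI : IsModuleTopology ℝ V := ⟨rfl⟩
  set W : Submodule ℝ V := Submodule.span ℝ (minFace P B) with hW
  have hFW : F ∈ minFace P B := ⟨hF, c, hc, h1⟩
  let b := Module.finBasis ℝ W
  -- bound for the basis vectors
  have hb : ∀ j, ∃ m : ℝ, 0 ≤ m ∧ m • B + (b j : V) ∈ P ∧ m • B - (b j : V) ∈ P := fun j =>
    bound_span hadd hsmul B hB (b j).2
  choose m hm0 hm1 hm2 using hb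
  obtain ⟨Ψ, hΨ⟩ := LinearMap.exists_extend (b.equivFun.toLinearMap)
  have hΨc : Continuous Ψ := IsModuleTopology.continuous_of_linearMap Ψ
  -- the open set
  let O : Set V := {G | ∑ j, |Ψ G j - Ψ F j| * m j < δ}
  have hO : IsOpen O := by
    apply isOpen_lt _ continuous_const
    apply continuous_finsetSum
    intro j _
    exact ((((continuous_apply j).comp hΨc).sub continuous_const).abs).mul continuous_const
  have hFO : F ∈ O := by
    show ∑ j, |Ψ F j - Ψ F j| * m j < δ
    simpa using hδ
  have key : ∀ G ∈ W, G ∈ O → G ∈ minFace P B := by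
    intro G hGW hGO
    have hFW' : F ∈ W := Submodule.subset_span hFW
    have hD : G - F ∈ W := W.sub_mem hGW hFW'
    have hrep : G - F = ∑ j, (Ψ G j - Ψ F j) • (b j : V) := by
      have h3 : b.equivFun ⟨G - F, hD⟩ = Ψ (G - F) := by
        have := LinearMap.congr_fun hΨ ⟨G - F, hD⟩
        simpa using this.symm
      have h4 := b.sum_equivFun ⟨G - F, hD⟩
      have h5 := congrArg (Subtype.val) h4
      rw [h3] at h5
      simp only [Submodule.coe_sum, Submodule.coe_smul, map_sub, Pi.sub_apply] at h5
      exact h5.symm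
    set s : ℝ := ∑ j, |Ψ G j - Ψ F j| * m j with hs
    have hsδ : s < δ := hGO
    have hs0 : 0 ≤ s := Finset.sum_nonneg fun j _ => mul_nonneg (abs_nonneg _) (hm0 j)
    have hPzero : (0 : V) ∈ P := by simpa using hsmul 0 le_rfl _ hB
    have hsum : ∀ (f : Fin (Module.finrank ℝ W) → V), (∀ j, f j ∈ P) → ∑ j, f j ∈ P := by
      intro f hf
      exact Finset.sum_induction f (· ∈ P) (fun a b ha hb => hadd a ha b hb) hPzero
        (fun j _ => hf j)
    have hterm : ∀ j, (|Ψ G j - Ψ F j| * m j) • B + (Ψ G j - Ψ F j) • (b j : V) ∈ P ∧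
        (|Ψ G j - Ψ F j| * m j) • B - (Ψ G j - Ψ F j) • (b j : V) ∈ P := by
      intro j
      set u := Ψ G j - Ψ F j
      rcases le_total 0 u with hu | hu
      · rw [abs_of_nonneg hu]
        constructor
        · have := hsmul u hu _ (hm1 j)
          convert this using 1
          module
        · have := hsmul u hu _ (hm2 j)
          convert this using 1
          module
      · rw [abs_of_nonpos hu]
        constructor
        · have := hsmul (-u) (by linarith) _ (hm2 j)
          convert this using 1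
          module
        · have := hsmul (-u) (by linarith) _ (hm1 j)
          convert this using 1
          module
    have hplus : s • B + (G - F) ∈ P := by
      rw [hrep, hs, Finset.sum_smul, ← Finset.sum_add_distrib]
      exact hsum _ (fun j => (hterm j).1)
    have hminus : s • B - (G - F) ∈ P := by
      rw [hrep, hs, Finset.sum_smul, ← Finset.sum_sub_distrib]
      exact hsum _ (fun j => (hterm j).2)
    refine ⟨?_, c + s, by positivity, ?_⟩
    · have h6 := hadd _ (hadd _ h2 _ hplus) _ (hsmul (δ - s) (by linarith) _ hB)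
      convert h6 using 1
      module
    · have h7 := hadd _ h1 _ hminus
      convert h7 using 1
      module
  rw [mem_intrinsicInterior]
  have hspan : ∀ G ∈ affineSpan ℝ (minFace P B), G ∈ W := by
    intro G hG
    exact affineSpan_subset_span hG
  refine ⟨⟨F, subset_affineSpan ℝ _ hFW⟩, ?_, rfl⟩
  rw [mem_interior]
  refine ⟨Subtype.val ⁻¹' O, ?_, hO.preimage continuous_subtype_val, hFO⟩
  rintro ⟨G, hG⟩ hGO
  exact key G (hspan G hG) hGO

end

end Pool.Agent.Helper98.FaceLemma
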