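import Mathlib

set_option autoImplicit false

namespace Pool.Agent.Helper98.StubbornCore

open MvPolynomial

/-- `aeval` of a homogeneous polynomial at a scaled point. -/
theorem aeval_smul_of_homogeneous {σ R S : Type} [CommSemiring R] [CommSemiring S] [Algebra R S]
    {g : MvPolynomial σ R} {n : ℕ} (hg : g.IsHomogeneous n) (c : S) (v : σ → S) :
    aeval (fun i => c * v i) g = c ^ n * aeval v g := by
  rw [aeval_def, aeval_def, eval₂_eq, eval₂_eq, Finset.mul_sum]
  refine Finset.sum_congr rfl fun m hm => ?_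
  have hdeg : ∑ i ∈ m.support, m i = n := by
    have := hg (mem_support_iff.1 hm)
    rw [← this, Finsupp.weight_apply]
    simp [Finsupp.sum]
  simp only [mul_pow, Finset.prod_mul_distrib, Finset.prod_pow_eq_pow_sum, hdeg]
  ring

/-- A sum of squares of real polynomials bounds the degrees. -/
theorem natDegree_le_of_sum_sq {r : ℕ} (p : Fin r → Polynomial ℝ) (k : ℕ)
    (h : (∑ i, p i ^ 2).natDegree ≤ 2 * k) (i : Fin r) : (p i).natDegree ≤ k := by
  classical
  -- the maximal degree
  obtain ⟨i₀, hi₀⟩ : ∃ i₀, ∀ j, (p j).natDegree ≤ (p i₀).natDegree := by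
    obtain ⟨i₀, _, h0⟩ := Finset.exists_max_image Finset.univ (fun j => (p j).natDegree)
      ⟨i, Finset.mem_univ i⟩
    exact ⟨i₀, fun j => h0 j (Finset.mem_univ j)⟩
  refine (hi₀ i).trans ?_
  by_contra hlt
  push Not at hlt
  set T := (p i₀).natDegree with hT
  have hcoeff : (∑ j, p j ^ 2).coeff (2 * T) = ∑ j, ((p j).coeff T) ^ 2 := by
    rw [Polynomial.finsetSum_coeff]
    refine Finset.sum_congr rfl fun j _ => ?_
    rw [Polynomial.coeff_pow_of_natDegree_le (hi₀ j)]
  have hzero : (∑ j, p j ^ 2).coeff (2 * T) = 0 := by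
    apply Polynomial.coeff_eq_zero_of_natDegree_lt
    omega
  rw [hcoeff] at hzero
  have h1 := (Finset.sum_eq_zero_iff_of_nonneg (fun j _ => sq_nonneg _)).1 hzero i₀
    (Finset.mem_univ _)
  have h2 : (p i₀).coeff T = 0 := by simpa using h1
  have h3 : p i₀ = 0 := Polynomial.leadingCoeff_eq_zero.1 h2
  have h4 : T = 0 := by rw [hT, h3]; simp
  omega

/-- the torus cone -/
def V : Set (Fin 5 → ℝ) := {x | x 1 ^ 2 + x 2 ^ 2 = x 0 ^ 2 ∧ x 3 ^ 2 + x 4 ^ 2 = x 0 ^ 2}

/-- `1 + t ^ 2` -/
noncomputable def T : Polynomial ℂ := 1 + Polynomial.X ^ 2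

/-- the complex parametrisation; outer variable `z`, inner variable `t`. -/
noncomputable def w : Fin 5 → Polynomial (Polynomial ℂ) :=
  ![2 * Polynomial.X * Polynomial.C T,
    (Polynomial.X ^ 2 + 1) * Polynomial.C T,
    Polynomial.C (Polynomial.C (-Complex.I)) * (Polynomial.X ^ 2 - 1) * Polynomial.C T,
    2 * Polynomial.X * Polynomial.C (1 - Polynomial.X ^ 2),
    2 * Polynomial.X * Polynomial.C (2 * Polynomial.X)]

/-- the real parametrisation for a fixed point `(c, s)` of the circle -/
noncomputable def v (c s : ℝ) : Fin 5 → Polynomial ℝ :=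
  ![1 + Polynomial.X ^ 2, Polynomial.C c * (1 + Polynomial.X ^ 2),
    Polynomial.C s * (1 + Polynomial.X ^ 2), 1 - Polynomial.X ^ 2, 2 * Polynomial.X]

noncomputable def φ : MvPolynomial (Fin 5) ℝ →ₐ[ℝ] Polynomial (Polynomial ℂ) := aeval w

/-- the divisibility property -/
def Div (n : ℕ) (p : Polynomial (Polynomial ℂ)) : Prop := ∀ a, T ^ (a - n) ∣ p.coeff a

theorem Div.mul {n m : ℕ} {p q : Polynomial (Polynomial ℂ)} (hp : Div n p) (hq : Div m q) :
    Div (n + m) (p * q) := by
  intro a
  rw [Polynomial.coeff_mul]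
  refine Finset.dvd_sum fun x hx => ?_
  have hx' : x.1 + x.2 = a := by simpa using hx
  have : a - (n + m) ≤ (x.1 - n) + (x.2 - m) := by omega
  refine (pow_dvd_pow T this).trans ?_
  rw [pow_add]
  exact mul_dvd_mul (hp _) (hq _)

theorem Div.add {n : ℕ} {p q : Polynomial (Polynomial ℂ)} (hp : Div n p) (hq : Div n q) :
    Div n (p + q) := by
  intro a
  rw [Polynomial.coeff_add]
  exact dvd_add (hp a) (hq a)

theorem Div.pow {n : ℕ} {p : Polynomial (Polynomial ℂ)} (hp : Div n p) (k : ℕ) :
    Div (n * k) (p ^ k) := by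
  induction k with
  | zero =>
    intro a
    rcases Nat.eq_zero_or_pos a with rfl | ha
    · simp
    · have : (1 : Polynomial (Polynomial ℂ)).coeff a = 0 := by
        rw [Polynomial.coeff_one]; simp [ha.ne']
      rw [pow_zero, this]; exact dvd_zero _
  | succ k ih =>
    rw [pow_succ, Nat.mul_succ]
    exact ih.mul hp

theorem div_w (i : Fin 5) : Div 1 (w i) := by
  intro a
  have h2 : ∀ (p : Polynomial (Polynomial ℂ)), p.natDegree ≤ 1 → T ^ (a - 1) ∣ p.coeff a := by
    intro p hp
    rcases Nat.lt_or_ge 1 a with h | h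
    · rw [Polynomial.coeff_eq_zero_of_natDegree_lt (by omega)]; exact dvd_zero _
    · rw [Nat.sub_eq_zero_of_le h, pow_zero]; exact one_dvd _
  have h3 : ∀ (p : Polynomial (Polynomial ℂ)), p.natDegree ≤ 2 →
      T ^ (a - 1) ∣ (p * Polynomial.C T).coeff a := by
    intro p hp
    rcases Nat.lt_or_ge 2 a with h | h
    · rw [Polynomial.coeff_mul_C, Polynomial.coeff_eq_zero_of_natDegree_lt (by omega), zero_mul]
      exact dvd_zero _
    · rw [Polynomial.coeff_mul_C]
      refine Dvd.dvd.mul_left ?_ _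
      have : a - 1 ≤ 1 := by omega
      simpa using pow_dvd_pow T this
  fin_cases i
  · refine h2 _ ?_
    simp only [w]
    show (2 * Polynomial.X * Polynomial.C T : Polynomial (Polynomial ℂ)).natDegree ≤ 1
    compute_degree
  · show T ^ (a - 1) ∣ ((Polynomial.X ^ 2 + 1) * Polynomial.C T :
      Polynomial (Polynomial ℂ)).coeff a
    refine h3 _ ?_
    compute_degree
  · show T ^ (a - 1) ∣ (Polynomial.C (Polynomial.C (-Complex.I)) * (Polynomial.X ^ 2 - 1) *
      Polynomial.C T : Polynomial (Polynomial ℂ)).coeff a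
    refine h3 _ ?_
    compute_degree
  · refine h2 _ ?_
    show (2 * Polynomial.X * Polynomial.C (1 - Polynomial.X ^ 2) :
      Polynomial (Polynomial ℂ)).natDegree ≤ 1
    compute_degree
  · refine h2 _ ?_
    show (2 * Polynomial.X * Polynomial.C (2 * Polynomial.X) :
      Polynomial (Polynomial ℂ)).natDegree ≤ 1
    compute_degree

theorem div_φ {g : MvPolynomial (Fin 5) ℝ} {n : ℕ} (hg : g.IsHomogeneous n) : Div n (φ g) := by
  classical
  have hprod : ∀ (s : Finset (Fin 5)) (m : Fin 5 → ℕ), Div (∑ i ∈ s, m i) (∏ i ∈ s, w i ^ m i) := by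
    intro s m
    induction s using Finset.induction_on with
    | empty =>
      intro a
      rcases Nat.eq_zero_or_pos a with rfl | ha
      · simp
      · have : (1 : Polynomial (Polynomial ℂ)).coeff a = 0 := by
          rw [Polynomial.coeff_one]; simp [ha.ne']
        rw [Finset.prod_empty, this]; exact dvd_zero _
    | insert i s hi ih =>
      rw [Finset.sum_insert hi, Finset.prod_insert hi]
      have := (div_w i).pow (m i)
      rw [one_mul] at this
      exact this.mul ih
  have : φ g = ∑ m ∈ g.support,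
      algebraMap ℝ (Polynomial (Polynomial ℂ)) (coeff m g) * ∏ i ∈ m.support, w i ^ m i := by
    rw [φ, aeval_def, eval₂_eq]
  rw [this]
  intro a
  rw [Polynomial.finsetSum_coeff]
  refine Finset.dvd_sum fun m hm => ?_
  have hdeg : ∑ i ∈ m.support, m i = n := by
    have := hg (mem_support_iff.1 hm)
    rw [← this, Finsupp.weight_apply]
    simp [Finsupp.sum]
  have h1 := hprod m.support m a
  rw [hdeg] at h1
  have h2 : algebraMap ℝ (Polynomial (Polynomial ℂ)) (coeff m g) =
      Polynomial.C (algebraMap ℝ (Polynomial ℂ) (coeff m g)) := rfl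
  rw [h2, Polynomial.coeff_C_mul]
  exact Dvd.dvd.mul_left h1 _

theorem eval_φ {g : MvPolynomial (Fin 5) ℝ} {n : ℕ} (hg : g.IsHomogeneous n) {c s : ℝ}
    (hcs : c ^ 2 + s ^ 2 = 1) :
    Polynomial.eval (Polynomial.C ((c : ℂ) + s * Complex.I)) (φ g) =
      Polynomial.C (2 * ((c : ℂ) + s * Complex.I)) ^ n *
        (aeval (v c s) g).map (algebraMap ℝ ℂ) := by
  set z : ℂ := (c : ℂ) + s * Complex.I with hz
  have hcs' : (c : ℂ) ^ 2 + (s : ℂ) ^ 2 = 1 := by exact_mod_cast hcs
  have h1 : z ^ 2 + 1 = 2 * z * c := by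
    rw [hz]
    have hI : Complex.I ^ 2 = -1 := Complex.I_sq
    linear_combination (-1 : ℂ) * hcs' + (s : ℂ) ^ 2 * hI
  have h2 : -Complex.I * (z ^ 2 - 1) = 2 * z * s := by
    rw [hz]
    have hI : Complex.I ^ 2 = -1 := Complex.I_sq
    linear_combination (-Complex.I) * hcs' - ((s : ℂ) ^ 2 * Complex.I + 2 * c * s) * hI
  let ψ : Polynomial (Polynomial ℂ) →ₐ[ℝ] Polynomial ℂ :=
    (Polynomial.aeval (Polynomial.C z : Polynomial ℂ)).restrictScalars ℝ
  have hψ : ∀ p, ψ p = Polynomial.eval (Polynomial.C z) p := by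
    intro p
    simp [ψ, Polynomial.aeval_def, Polynomial.eval₂_eq_eval_map]
  let μ : Polynomial ℝ →ₐ[ℝ] Polynomial ℂ := Polynomial.mapAlgHom (Algebra.ofId ℝ ℂ)
  have hμ : ∀ p, μ p = p.map (algebraMap ℝ ℂ) := fun p => rfl
  rw [← hψ, ← hμ]
  have h3 : ψ (φ g) = aeval (fun i => ψ (w i)) g := by
    rw [φ, ← AlgHom.comp_apply, comp_aeval]
  have h4 : μ (aeval (v c s) g) = aeval (fun i => μ (v c s i)) g := by
    rw [← AlgHom.comp_apply, comp_aeval]
  have hC2 : (2 : Polynomial ℂ) = Polynomial.C 2 := (map_ofNat Polynomial.C 2).symm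
  have hw : ∀ i, Polynomial.eval (Polynomial.C z) (w i) =
      Polynomial.C (2 * z) * (v c s i).map (algebraMap ℝ ℂ) := by
    intro i
    fin_cases i
    · show Polynomial.eval (Polynomial.C z) (2 * Polynomial.X * Polynomial.C (1 + Polynomial.X ^ 2)) =
        Polynomial.C (2 * z) * (1 + Polynomial.X ^ 2 : Polynomial ℝ).map (algebraMap ℝ ℂ)
      simp only [Polynomial.eval_mul, Polynomial.eval_X, Polynomial.eval_C, Polynomial.map_add,
        Polynomial.map_one, Polynomial.map_pow, Polynomial.map_X, map_mul, Polynomial.eval_ofNat,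
        hC2]
    · show Polynomial.eval (Polynomial.C z) ((Polynomial.X ^ 2 + 1) *
          Polynomial.C (1 + Polynomial.X ^ 2)) =
        Polynomial.C (2 * z) * (Polynomial.C c * (1 + Polynomial.X ^ 2) : Polynomial ℝ).map
          (algebraMap ℝ ℂ)
      have h5 : (Polynomial.C z ^ 2 + 1 : Polynomial ℂ) = Polynomial.C (2 * z * c) := by
        rw [← h1]; simp
      simp only [Polynomial.eval_mul, Polynomial.eval_add, Polynomial.eval_pow, Polynomial.eval_X,
        Polynomial.eval_one, Polynomial.eval_C, Polynomial.map_mul, Polynomial.map_add,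
        Polynomial.map_one, Polynomial.map_pow, Polynomial.map_X, Polynomial.map_C, h5]
      simp only [map_mul, Complex.coe_algebraMap]
      ring
    · show Polynomial.eval (Polynomial.C z) (Polynomial.C (Polynomial.C (-Complex.I)) *
          (Polynomial.X ^ 2 - 1) * Polynomial.C (1 + Polynomial.X ^ 2)) =
        Polynomial.C (2 * z) * (Polynomial.C s * (1 + Polynomial.X ^ 2) : Polynomial ℝ).map
          (algebraMap ℝ ℂ)
      have h5 : (Polynomial.C (-Complex.I) * (Polynomial.C z ^ 2 - 1) : Polynomial ℂ) =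
          Polynomial.C (2 * z * s) := by
        rw [← h2]; simp
      simp only [Polynomial.eval_mul, Polynomial.eval_sub, Polynomial.eval_pow, Polynomial.eval_X,
        Polynomial.eval_one, Polynomial.eval_C, Polynomial.map_mul, Polynomial.map_add,
        Polynomial.map_one, Polynomial.map_pow, Polynomial.map_X, Polynomial.map_C, h5]
      simp only [map_mul, Complex.coe_algebraMap]
      ring
    · show Polynomial.eval (Polynomial.C z) (2 * Polynomial.X *
          Polynomial.C (1 - Polynomial.X ^ 2)) =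
        Polynomial.C (2 * z) * (1 - Polynomial.X ^ 2 : Polynomial ℝ).map (algebraMap ℝ ℂ)
      simp only [Polynomial.eval_mul, Polynomial.eval_X, Polynomial.eval_C, Polynomial.map_sub,
        Polynomial.map_one, Polynomial.map_pow, Polynomial.map_X, map_mul, Polynomial.eval_ofNat,
        hC2]
    · show Polynomial.eval (Polynomial.C z) (2 * Polynomial.X *
          Polynomial.C (2 * Polynomial.X)) =
        Polynomial.C (2 * z) * (2 * Polynomial.X : Polynomial ℝ).map (algebraMap ℝ ℂ)
      simp only [Polynomial.eval_mul, Polynomial.eval_X, Polynomial.eval_C, Polynomial.map_mul,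
        Polynomial.map_X, map_mul, Polynomial.eval_ofNat, Polynomial.map_ofNat, hC2]
  rw [h3, h4, ← aeval_smul_of_homogeneous hg]
  congr 2
  funext i
  rw [hψ, hμ, hw]

theorem infinite_circle :
    {z : Polynomial ℂ | ∃ c s : ℝ, c ^ 2 + s ^ 2 = 1 ∧
      z = Polynomial.C ((c : ℂ) + s * Complex.I)}.Infinite := by
  have hinf : (Set.Icc (0 : ℝ) 1).Infinite := Set.Icc_infinite one_pos
  refine Set.Infinite.mono ?_ (hinf.image (f := fun c : ℝ =>
    Polynomial.C ((c : ℂ) + (Real.sqrt (1 - c ^ 2) : ℝ) * Complex.I)) ?_)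
  · rintro _ ⟨c, hc, rfl⟩
    refine ⟨c, Real.sqrt (1 - c ^ 2), ?_, rfl⟩
    rw [Real.sq_sqrt]
    · ring
    · have := hc.1; have := hc.2; nlinarith
  · intro c _ d _ h
    have h' := Polynomial.C_injective h
    have := congrArg Complex.re h'
    simpa using this

theorem eval_aeval_v (c s t : ℝ) (g : MvPolynomial (Fin 5) ℝ) :
    Polynomial.eval t (aeval (v c s) g) = eval (fun i => Polynomial.eval t (v c s i)) g := by
  have h1 : Polynomial.eval t (aeval (v c s) g) = (Polynomial.aeval t) (aeval (v c s) g) := by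
    rw [Polynomial.coe_aeval_eq_eval]
  rw [h1, ← AlgHom.comp_apply, comp_aeval]
  simp only [Polynomial.coe_aeval_eq_eval]
  rfl

theorem point_mem (c s t : ℝ) (hcs : c ^ 2 + s ^ 2 = 1) :
    (fun i => Polynomial.eval t (v c s i)) ∈ V := by
  constructor
  · show Polynomial.eval t (Polynomial.C c * (1 + Polynomial.X ^ 2)) ^ 2 +
      Polynomial.eval t (Polynomial.C s * (1 + Polynomial.X ^ 2)) ^ 2 =
      Polynomial.eval t (1 + Polynomial.X ^ 2) ^ 2
    simp only [Polynomial.eval_mul, Polynomial.eval_add, Polynomial.eval_pow, Polynomial.eval_X,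
      Polynomial.eval_one, Polynomial.eval_C]
    linear_combination (1 + t ^ 2) ^ 2 * hcs
  · show Polynomial.eval t (1 - Polynomial.X ^ 2) ^ 2 +
      Polynomial.eval t (2 * Polynomial.X) ^ 2 =
      Polynomial.eval t (1 + Polynomial.X ^ 2) ^ 2
    simp only [Polynomial.eval_mul, Polynomial.eval_add, Polynomial.eval_sub, Polynomial.eval_pow,
      Polynomial.eval_X, Polynomial.eval_one, Polynomial.eval_ofNat]
    ring

/-- the quadric `(x₀ + x₃) (2 x₀ + x₁)` -/
noncomputable def F₁ : MvPolynomial (Fin 5) ℝ := (X 0 + X 3) * (2 * X 0 + X 1)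

theorem F₁_homogeneous : F₁.IsHomogeneous 2 := by
  have h2 : (2 : MvPolynomial (Fin 5) ℝ) = C 2 := (map_ofNat C 2).symm
  refine ((isHomogeneous_X ℝ 0).add (isHomogeneous_X ℝ 3)).mul (n := 1) (IsHomogeneous.add ?_ ?_)
  · rw [h2]
    simpa using (isHomogeneous_C (Fin 5) (2 : ℝ)).mul (isHomogeneous_X ℝ (0 : Fin 5))
  · exact isHomogeneous_X ℝ 1

theorem φ_F₁ : φ F₁ = Polynomial.C (4 * T) *
    (Polynomial.X ^ 3 + 4 * Polynomial.X ^ 2 + Polynomial.X) := by
  have h0 : φ (X 0) = 2 * Polynomial.X * Polynomial.C T := by rw [φ, aeval_X]; rfl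
  have h1 : φ (X 1) = (Polynomial.X ^ 2 + 1) * Polynomial.C T := by rw [φ, aeval_X]; rfl
  have h3 : φ (X 3) = 2 * Polynomial.X * Polynomial.C (1 - Polynomial.X ^ 2) := by
    rw [φ, aeval_X]; rfl
  rw [F₁, map_mul, map_add, map_add, map_mul, h0, h1, h3, map_ofNat]
  have h4 : (Polynomial.C T + Polynomial.C (1 - Polynomial.X ^ 2) : Polynomial (Polynomial ℂ)) =
      2 := by
    rw [← map_add]
    have : T + (1 - Polynomial.X ^ 2) = 2 := by rw [T]; ring
    rw [this, map_ofNat]
  rw [map_mul, map_ofNat]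
  linear_combination (2 * Polynomial.X * (2 * (2 * Polynomial.X * Polynomial.C T) +
    (Polynomial.X ^ 2 + 1) * Polynomial.C T)) * h4

theorem T_ne_zero : T ≠ 0 := by
  intro h
  have := congrArg (Polynomial.eval 0) h
  simp [T] at this

theorem T_natDegree : T.natDegree = 2 := by
  rw [T]
  compute_degree!

theorem natDegree_φ_F₁ (k : ℕ) : ((φ F₁) ^ k).natDegree = 3 * k := by
  have h4 : (4 * T : Polynomial ℂ) ≠ 0 := mul_ne_zero (by norm_num) T_ne_zero
  have : (φ F₁).natDegree = 3 := by
    rw [φ_F₁, Polynomial.natDegree_C_mul h4]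
    compute_degree!
  rw [Polynomial.natDegree_pow, this, mul_comm]

theorem core {k r : ℕ} (hk : Odd k) (g : Fin r → MvPolynomial (Fin 5) ℝ)
    (hg : ∀ i, (g i).IsHomogeneous k)
    (h : ∀ x ∈ V, (eval x F₁) ^ k = ∑ i, (eval x (g i)) ^ 2) : False := by
  -- Step A
  have hA : ∀ c s : ℝ, c ^ 2 + s ^ 2 = 1 →
      ∑ i, (aeval (v c s) (g i)) ^ 2 = (aeval (v c s) F₁) ^ k := by
    intro c s hcs
    apply Polynomial.funext
    intro t
    rw [Polynomial.eval_finsetSum, Polynomial.eval_pow, eval_aeval_v,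
      h _ (point_mem c s t hcs)]
    refine Finset.sum_congr rfl fun i _ => ?_
    rw [Polynomial.eval_pow, eval_aeval_v]
  have hF : ∀ c s : ℝ, aeval (v c s) F₁ =
      2 * (Polynomial.C (2 + c) * (1 + Polynomial.X ^ 2)) := by
    intro c s
    rw [F₁, map_mul, map_add, map_add, map_mul, aeval_X, aeval_X, aeval_X, map_ofNat]
    show ((1 + Polynomial.X ^ 2) + (1 - Polynomial.X ^ 2)) * (2 * (1 + Polynomial.X ^ 2) +
      Polynomial.C c * (1 + Polynomial.X ^ 2)) = _
    rw [map_add, map_ofNat]
    ring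
  -- Step B
  have hB : ∀ c s : ℝ, c ^ 2 + s ^ 2 = 1 → ∀ i, (aeval (v c s) (g i)).natDegree ≤ k := by
    intro c s hcs i
    refine natDegree_le_of_sum_sq (fun i => aeval (v c s) (g i)) k ?_ i
    rw [hA c s hcs, hF, mul_comm 2 k]
    refine Polynomial.natDegree_pow_le_of_le k ?_
    compute_degree
  -- Step C
  have hC : ∀ i m, ((φ (g i)).coeff m).natDegree ≤ k := by
    intro i m
    rw [Polynomial.natDegree_le_iff_coeff_eq_zero]
    intro j hj
    set P := φ (g i) with hP
    let Q : Polynomial ℂ := ∑ l ∈ Finset.range (P.natDegree + 1),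
      Polynomial.monomial l ((P.coeff l).coeff j)
    have hQ : Q = 0 := by
      apply Polynomial.eq_zero_of_infinite_isRoot
      have hinf := infinite_circle
      refine Set.Infinite.of_image (fun z : ℂ => (Polynomial.C z : Polynomial ℂ))
        (hinf.mono ?_)
      rintro _ ⟨c, s, hcs, rfl⟩
      refine ⟨(c : ℂ) + s * Complex.I, ?_, rfl⟩
      set z : ℂ := (c : ℂ) + s * Complex.I with hz
      show Polynomial.eval z Q = 0
      have h1 : Polynomial.eval z Q = (Polynomial.eval (Polynomial.C z) P).coeff j := by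
        rw [Polynomial.eval_eq_sum_range (p := P), Polynomial.finsetSum_coeff,
          Polynomial.eval_finsetSum]
        refine Finset.sum_congr rfl fun l _ => ?_
        rw [Polynomial.eval_monomial, ← Polynomial.C_pow, Polynomial.coeff_mul_C]
      rw [h1, hP, eval_φ (hg i) hcs, ← Polynomial.C_pow, Polynomial.coeff_C_mul,
        Polynomial.coeff_map, Polynomial.coeff_eq_zero_of_natDegree_lt
          (lt_of_le_of_lt (hB c s hcs i) hj)]
      simp
    rcases Nat.lt_or_ge P.natDegree m with hm | hm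
    · rw [Polynomial.coeff_eq_zero_of_natDegree_lt hm, Polynomial.coeff_zero]
    · have h2 : Q.coeff m = (P.coeff m).coeff j := by
        rw [Polynomial.finsetSum_coeff, Finset.sum_eq_single m]
        · simp
        · intro l _ hl
          rw [Polynomial.coeff_monomial, if_neg hl]
        · intro hm'
          exact absurd (Finset.mem_range.2 (by omega)) hm'
      rw [← h2, hQ, Polynomial.coeff_zero]
  -- Step D
  have hD : ∀ i, (φ (g i)).natDegree ≤ k + k / 2 := by
    intro i
    rw [Polynomial.natDegree_le_iff_coeff_eq_zero]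
    intro m hm
    refine Polynomial.eq_zero_of_dvd_of_natDegree_lt (div_φ (hg i) m) ?_
    rw [Polynomial.natDegree_pow, T_natDegree]
    refine lt_of_le_of_lt (hC i m) ?_
    omega
  -- Step E
  have hE : (φ F₁) ^ k = ∑ i, (φ (g i)) ^ 2 := by
    rw [← sub_eq_zero]
    apply Polynomial.eq_zero_of_infinite_isRoot
    refine infinite_circle.mono ?_
    rintro _ ⟨c, s, hcs, rfl⟩
    show Polynomial.eval _ _ = 0
    rw [Polynomial.eval_sub, Polynomial.eval_pow, Polynomial.eval_finsetSum,
      eval_φ F₁_homogeneous hcs, sub_eq_zero]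
    have h1 : ∀ i, Polynomial.eval (Polynomial.C ((c : ℂ) + s * Complex.I)) (φ (g i) ^ 2) =
        Polynomial.C (2 * ((c : ℂ) + s * Complex.I)) ^ (2 * k) *
          ((aeval (v c s) (g i)) ^ 2).map (algebraMap ℝ ℂ) := by
      intro i
      rw [Polynomial.eval_pow, eval_φ (hg i) hcs, Polynomial.map_pow]
      ring
    rw [Finset.sum_congr rfl fun i _ => h1 i, ← Finset.mul_sum, ← Polynomial.map_sum,
      hA c s hcs, Polynomial.map_pow]
    ring
  -- Step F
  have hF1 := natDegree_φ_F₁ k
  have hF2 : (∑ i, (φ (g i)) ^ 2).natDegree ≤ 2 * (k + k / 2) := by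
    refine Polynomial.natDegree_sum_le_of_forall_le _ _ fun i _ => ?_
    exact Polynomial.natDegree_pow_le_of_le 2 (hD i)
  rw [hE] at hF1
  rw [hF1] at hF2
  obtain ⟨l, rfl⟩ := hk
  omega

end Pool.Agent.Helper98.StubbornCore
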